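import Pool.Agent.EGH.Main
import Pool.Agent.EGH.Final

namespace Pool.Agent.Results.MP_4cdbcc_ag.AllDegrees

/-- The Eisenbud, Green, Harris bound `e ≤ P - δ Q` for all degrees, over every field. -/
theorem result :
  ∀ (K : Type) [Field K] (n : ℕ) (a : Fin n → ℕ), (∀ i, 0 < a i) → Monotone a →
  ∀ (f : Fin n → MvPolynomial (Fin n) K),
    (∀ i, (f i).IsHomogeneous (a i)) →
    RingTheory.Sequence.IsRegular (MvPolynomial (Fin n) K) (List.ofFn f) →
  ∀ (D b : ℕ),
    D ≤ ∑ i : Fin n, (a i - 1) →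
    b ≤ n →
    (∑ i ∈ Finset.univ.filter (fun i : Fin n => i.val < b), (a i - 1)) ≤ D →
    (b < n → D < ∑ i ∈ Finset.univ.filter (fun i : Fin n => i.val < b + 1), (a i - 1)) →
  ∀ (g : MvPolynomial (Fin n) K), g.IsHomogeneous D →
    g ∉ Ideal.span (Set.range f) →
    ((Module.finrank K (MvPolynomial (Fin n) K ⧸
        (Ideal.span (Set.range f) ⊔ Ideal.span {g})) : ℕ) : ℤ)
      ≤ (∏ i : Fin n, (a i : ℤ))
        - (if b < n then
            ((∑ i ∈ Finset.univ.filter (fun i : Fin n => i.val < b + 1), (a i - 1) : ℕ) : ℤ)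
              - (D : ℤ) + 1
           else 1)
          * ∏ i ∈ Finset.univ.filter (fun i : Fin n => b + 1 ≤ i.val), (a i : ℤ) :=
  fun _ _ _ _ ha hm _ hf hr _ _ hD hbn _ hb' _ hg hg' =>
    Pool.Agent.EGH.final_of_core
      (fun _ _ _ _ a ha hm f hf hN J hJ hfJ _ _ _ hz hz' =>
        Pool.Agent.EGH.core a ha hm f hf hN J hJ
          (Ideal.span_le.2 (Set.range_subset_iff.2 hfJ)) hz hz')
      ha hm hf hr hD hbn hb' hg hg'

end Pool.Agent.Results.MP_4cdbcc_ag.AllDegrees
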